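import Pool.Agent.H20.ER3.Lib

/-!
# MP_816b90_co: Operation C, row SX
-/

set_option autoImplicit false

namespace Pool.Agent.H61.ER3

open Pool.Agent.H48.ER Pool.Agent.H52.ER2 Pool.Agent.H66.ER2 Pool.Agent.H20.ER3

/-- the antihole through the root of `S` -/
def wx {V : Type} (S : Set V) (p : ℕ → V) : ℕ → V ⊕ Set V
  | 0 => Sum.inr S
  | (i + 1) => Sum.inl (p i)

theorem pf_SX : U_SX := by
  intro V G R S hS hA n f g X hX hn hf hg hw
  obtain ⟨p, p0, pn, pi, pa, hXe⟩ := hX
  have hmem : ∀ i, i ≤ n → p i ∈ X := fun i hi => by rw [hXe]; exact ⟨i, hi, rfl⟩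
  -- interior vertices
  have hin : ∀ i, i ≤ n → i ≠ 0 → i ≠ n → p i ∉ R ∧ ∃ r ∈ R, G.Adj (p i) r := by
    intro i hi h0 h1
    rcases hw (p i) (hmem i hi) with h | h | h
    · exact absurd (pi i 0 hi (Nat.zero_le _) (h.trans p0.symm)) h0
    · exact absurd (pi i n hi le_rfl (h.trans pn.symm)) h1
    · exact h
  have hend : ∀ i, i ≤ n → (i = 0 ∨ i = n) → p i ∈ R := by
    intro i hi h
    rcases h with h | h
    · rw [h, p0]; exact hf
    · rw [h, pn]; exact hg
  have hnS : ∀ i, i ≤ n → p i ∉ S := by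
    intro i hi hs
    by_cases h : i = 0 ∨ i = n
    · exact Set.disjoint_left.1 hS.dis (hend i hi h) hs
    · obtain ⟨_, r, hr, ha⟩ := hin i hi (fun e => h (Or.inl e)) (fun e => h (Or.inr e))
      exact hS.ne r hr _ hs ha.symm
  have hsee : ∀ i, i ≤ n → (Sees G S S (p i) ↔ i ≠ 0 ∧ i ≠ n) := by
    intro i hi
    constructor
    · rintro ⟨_, _, _, s, hs, ha⟩
      have key : ¬ (i = 0 ∨ i = n) := fun h => hS.ne _ (hend i hi h) s hs ha
      exact ⟨fun e => key (Or.inl e), fun e => key (Or.inr e)⟩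
    · rintro ⟨h0, h1⟩
      obtain ⟨hR, hr⟩ := hin i hi h0 h1
      exact ⟨hnS i hi, subset_rfl, hS.cn, (hS.nb _ hR (hnS i hi)).2 hr⟩
  have hadj : ∀ i j, i ≤ n → j ≤ n → i ≠ j → (G.Adj (p i) (p j) ↔ ¬ (i + 1 = j ∨ j + 1 = i)) := by
    intro i j hi hj hij
    rw [← pa i j hi hj, SimpleGraph.compl_adj]
    constructor
    · intro h h'
      exact h'.2 h
    · intro h
      by_contra h'
      exact h ⟨fun e => hij (pi i j hi hj e), h'⟩
  have hZ : ∀ i, i < n + 2 → wx S p i ∈ {x : V ⊕ Set V | ∀ r ∈ S, x ≠ Sum.inl r} := by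
    intro i hi r hr
    rcases i with _ | i
    · intro e
      cases e
    · intro e
      have e' : p i = r := Sum.inl.inj e
      exact hnS i (by omega) (e' ▸ hr)
  refine hA (n + 2) (wx S p) (by omega) ⟨?_, ?_⟩ (fun _ => ?_)
  · intro i j hi hj e
    rcases i with _ | i <;> rcases j with _ | j
    · rfl
    · cases e
    · cases e
    · have e' : p i = p j := Sum.inl.inj e
      have := pi i j (by omega) (by omega) e'
      omega
  · intro i j hi hj hij
    have hr : (OC G S).Adj (wx S p i) (wx S p j) ↔ (MG G S).Adj (wx S p i) (wx S p j) :=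
      ⟨fun h => h.2.2, fun h => ⟨hZ i hi, hZ j hj, h⟩⟩
    rw [hr]
    rcases i with _ | i <;> rcases j with _ | j
    · exact absurd rfl hij
    · have h1 : (MG G S).Adj (wx S p 0) (wx S p (j + 1)) ↔ Sees G S S (p j) := Iff.rfl
      rw [h1, hsee j (by omega)]
      omega
    · have h1 : (MG G S).Adj (wx S p (i + 1)) (wx S p 0) ↔ Sees G S S (p i) := Iff.rfl
      rw [h1, hsee i (by omega)]
      omega
    · have h1 : (MG G S).Adj (wx S p (i + 1)) (wx S p (j + 1)) ↔ G.Adj (p i) (p j) := Iff.rfl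
      rw [h1, hadj i j (by omega) (by omega) (by omega)]
      omega
  · have key : ∀ F, F ∈ rt {v | ∃ i, i < n + 2 ∧ wx S p i = v} → F = S := by
      rintro F ⟨i, _, hi⟩
      rcases i with _ | i
      · exact (Sum.inr.inj hi).symm
      · cases hi
    intro F hF F' hF'
    rw [key F hF, key F' hF']

end Pool.Agent.H61.ER3
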